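import Mathlib
import Pool.Agent.Lib.P325f1f.Dich.GameDefs

/-!
# NP-hardness of gap problems for unique games: definitions

`Game`, `Game.value` are in `Pool/Agent/Lib/P325f1f/Dich/GameDefs.lean`. Polynomial-time computability
is Mathlib's `Turing.TM2ComputableInPolyTime`.
-/

namespace Pool.Agent.P325n

open Pool.Agent.P325f1f.Dich Turing

/-- An instance with label set `Fin q`: `a` left vertices, `b` right vertices, `m ≥ 1` edges, each with
its two ends and its permutation. -/
structure Inst (q : ℕ) where
  /-- the number of left vertices -/
  a : ℕ
  /-- the number of right vertices -/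
  b : ℕ
  /-- the number of edges -/
  m : ℕ
  /-- there is an edge -/
  pos : 0 < m
  /-- the game -/
  game : Game (Fin a) (Fin b) (Fin q) (Fin m)

/-- The string of `n` bits whose only `1` is at position `i`. -/
def oneHot (n i : ℕ) : List Bool := (List.range n).map (fun j => decide (j = i))

/-- The binary string of an instance: `a` ones, a zero, `b` ones, a zero, `m` ones, a zero, and for
every edge the positions of its two ends (`a` bits and `b` bits) and its permutation matrix
(`q` rows of `q` bits). -/
def Inst.encode {q : ℕ} (I : Inst q) : List Bool :=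
  List.replicate I.a true ++ (false :: (List.replicate I.b true ++ (false ::
    (List.replicate I.m true ++ (false :: (List.finRange I.m).flatMap (fun e =>
      oneHot I.a (I.game.src e) ++ (oneHot I.b (I.game.dst e) ++
        (List.finRange q).flatMap (fun i => oneHot q (I.game.perm e i)))))))))

/-- The binary string of a pair of strings: every bit of the first string preceded by a one, a zero,
the second string. -/
def pairCode (p : List Bool × List Bool) : List Bool :=
  p.1.flatMap (fun b => [true, b]) ++ (false :: p.2)

/-- The language `L` is in NP: for some polynomial `p` and some predicate `V` computable in polynomial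
time, `x ∈ L` iff `V (x, w)` for some string `w` of length at most `p |x|`. -/
def InNP (L : Set (List Bool)) : Prop :=
  ∃ (p : Polynomial ℕ) (V : List Bool × List Bool → Bool),
    Nonempty (TM2ComputableInPolyTime (αΓ := Bool) (βΓ := Bool) pairCode (fun b => [b]) V) ∧
      ∀ x, x ∈ L ↔ ∃ w : List Bool, w.length ≤ p.eval x.length ∧ V (x, w) = true

/-- The promise problem with the given yes-instances and no-instances is NP-hard: from every
language in NP there is a deterministic polynomial-time many-one reduction. -/
def NPHard {q : ℕ} (yes no : Set (Inst q)) : Prop :=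
  ∀ L : Set (List Bool), InNP L → ∃ f : List Bool → Inst q,
    Nonempty (TM2ComputableInPolyTime (αΓ := Bool) (βΓ := Bool) id Inst.encode f) ∧
      (∀ x ∈ L, f x ∈ yes) ∧ ∀ x ∉ L, f x ∈ no

/-- The instances all of whose constraint permutations are in `P`. -/
def Over {q : ℕ} (P : Set (Equiv.Perm (Fin q))) : Set (Inst q) := {I | ∀ e, I.game.perm e ∈ P}

/-- The unique games problem over the family `F` of pairs of a number `q` of labels and a set `P` of
permutations of `Fin q`, with completeness near `c` and soundness near `0`: for all `ε, δ > 0` with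
`ε + δ < c` there are `q > 0` and `P` in the family such that it is NP-hard to distinguish
the games over `P` of value at least `c - ε` from those of value at most `δ`. -/
def GapHard (c : ℚ) (F : (q : ℕ) → Set (Set (Equiv.Perm (Fin q)))) : Prop :=
  ∀ ε δ : ℚ, 0 < ε → 0 < δ → ε + δ < c → ∃ q : ℕ, 0 < q ∧ ∃ P ∈ F q,
    NPHard {I : Inst q | I ∈ Over P ∧ ((c - ε : ℚ) : ℝ) ≤ I.game.value}
      {I : Inst q | I ∈ Over P ∧ I.game.value ≤ ((δ : ℚ) : ℝ)}

/-- The family of all permutations. -/
def allPerms (q : ℕ) : Set (Set (Equiv.Perm (Fin q))) := {Set.univ}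

/-- The family `F` contains spread lists of permutations: for every `δ > 0` there are `q > 0`, a set
`P` in the family and permutations `σ 0, ..., σ (n - 1)` in `P`, `n > 0`, such that every pair of
labels `i`, `j` satisfies `σ k i = j` for at most `δ n` of the `k`. -/
def Spread (F : (q : ℕ) → Set (Set (Equiv.Perm (Fin q)))) : Prop :=
  ∀ δ : ℚ, 0 < δ → ∃ q : ℕ, 0 < q ∧ ∃ P ∈ F q, ∃ n : ℕ, 0 < n ∧ ∃ σ : Fin n → Equiv.Perm (Fin q),
    (∀ k, σ k ∈ P) ∧ ∀ i j, ((Finset.univ.filter (fun k => σ k i = j)).card : ℚ) ≤ δ * n

end Pool.Agent.P325n
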