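import Mathlib
import Pool.Agent.Lib.P325n.Defs
import Pool.Agent.Lib.Pa7c826t.ArrPoly

/-!
# P325n.Bits (1.2 h): reading the string of an instance in polynomial time

`w : α → Inst q` is an instance computed from the context. Everything is read off the string
`(w x).encode`: `un (w x).a` is the leading block of `true`s (`PolyC.takeTrue`, `takeWhile_un`; note
`un n = List.replicate n true` by definition), `PolyTime.afterTrue` drops it, and so on three times
(`afterTrue_un`). The body is `(List.finRange m).flatMap block = (List.range m).flatMap block'` with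
blocks of constant length `a + b + q * q` (`getD_flatMap`, `length_flatMap_const` in
`Pa7c826t/ArrPoly.lean`; write `block' e = if h : e < m then block ⟨e, h⟩ else []` or use
`List.finRange_eq_...`/`List.map_coe_finRange`), so with `L = a + b + q * q`:
`body.getD (e * L + i) = decide (i = src e)` for `i < a`,
`body.getD (e * L + a + i) = decide (i = dst e)` for `i < b`,
`body.getD (e * L + a + b + (i * q + j)) = decide (j = perm e i)` for `i, j < q`.
Use `PolyB.getD`, `PolyN.add`, `PolyN.mul`, `PolyN.const`.
`poly_perm`: `permN e = π` iff for all `i < q` the bit `(i, π i)` is `1`: a finite conjunction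
(induction on a `Finset` or a `List` of the elements of `Fin q`; `PolyB.and`, `PolyB.const`).
-/

namespace Pool.Agent.P325n

open Pool.Agent.Lib.PolyTime Pool.Agent.P325f1f.Dich

variable {q : ℕ}

/-- The left end of the edge number `e`. -/
def Inst.srcN (I : Inst q) (e : ℕ) : ℕ := if h : e < I.m then (I.game.src ⟨e, h⟩ : ℕ) else 0

/-- The right end of the edge number `e`. -/
def Inst.dstN (I : Inst q) (e : ℕ) : ℕ := if h : e < I.m then (I.game.dst ⟨e, h⟩ : ℕ) else 0

/-- The permutation of the edge number `e`. -/
def Inst.permN (I : Inst q) (e : ℕ) : Equiv.Perm (Fin q) :=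
  if h : e < I.m then I.game.perm ⟨e, h⟩ else 1

variable {α : Type*} {D : α → Prop} {ctx : List (α → List Bool)} {w : α → Inst q}

namespace BitsAux

theorem oneHot_length (n i : ℕ) : (oneHot n i).length = n := by
  simp [oneHot]

theorem oneHot_getD {n i x : ℕ} (hx : x < n) : (oneHot n i).getD x false = decide (x = i) := by
  unfold oneHot
  rw [List.getD_eq_getElem?_getD, List.getElem?_map, List.getElem?_range hx]
  rfl

/-- the entry `(e, i)` of the array of the permutations -/
def pN (I : Inst q) (e i : ℕ) : ℕ := if h : i < q then (I.permN e ⟨i, h⟩ : ℕ) else 0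

/-- the block of the edge number `e` -/
def blk (I : Inst q) (e : ℕ) : List Bool :=
  oneHot I.a (I.srcN e) ++ (oneHot I.b (I.dstN e) ++
    (List.range q).flatMap (fun i => oneHot q (pN I e i)))

theorem pblk_length (I : Inst q) (e : ℕ) :
    ((List.range q).flatMap (fun i => oneHot q (pN I e i))).length = q * q :=
  Pool.Agent.Lib.Pa7c826t.length_flatMap_const q _ q (fun _ _ => oneHot_length q _)

theorem blk_length (I : Inst q) (e : ℕ) : (blk I e).length = I.a + I.b + q * q := by
  unfold blk
  rw [List.length_append, List.length_append, oneHot_length, oneHot_length, pblk_length, add_assoc]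

theorem finRange_flatMap (n : ℕ) (F : ℕ → List Bool) :
    (List.finRange n).flatMap (fun e : Fin n => F (e : ℕ)) = (List.range n).flatMap F := by
  have h : (List.finRange n).map (fun i : Fin n => (i : ℕ)) = List.range n := by
    apply List.ext_getElem
    · simp
    · intro i h1 h2
      simp
  rw [← h, List.flatMap_map]

theorem encode_eq (I : Inst q) : I.encode = un I.a ++ false :: (un I.b ++ false ::
    (un I.m ++ false :: (List.range I.m).flatMap (blk I))) := by
  unfold Inst.encode
  have h1 : (List.finRange I.m).flatMap (fun e =>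
      oneHot I.a (I.game.src e) ++ (oneHot I.b (I.game.dst e) ++
        (List.finRange q).flatMap (fun i => oneHot q (I.game.perm e i)))) =
      (List.finRange I.m).flatMap (fun e : Fin I.m => blk I (e : ℕ)) := by
    refine congrArg (fun G => List.flatMap G (List.finRange I.m)) ?_
    funext e
    unfold blk
    have hs : I.srcN (e : ℕ) = (I.game.src e : ℕ) := by
      unfold Inst.srcN
      rw [dif_pos e.2]
    have hd : I.dstN (e : ℕ) = (I.game.dst e : ℕ) := by
      unfold Inst.dstN
      rw [dif_pos e.2]
    have hp : (List.finRange q).flatMap (fun i => oneHot q (I.game.perm e i)) =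
        (List.range q).flatMap (fun i => oneHot q (pN I e i)) := by
      rw [← finRange_flatMap]
      refine congrArg (fun G => List.flatMap G (List.finRange q)) ?_
      funext i
      unfold pN Inst.permN
      rw [dif_pos i.2, dif_pos e.2]
    rw [hs, hd, hp]
  rw [h1, finRange_flatMap]
  rfl

theorem poly_body (hw : PolyC D ctx (fun x => (w x).encode)) :
    PolyC D ctx (fun x => (List.range (w x).m).flatMap (blk (w x))) :=
  hw.afterTrue.afterTrue.afterTrue.congr (fun x _ => by
    rw [encode_eq, afterTrue_un, afterTrue_un, afterTrue_un])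

theorem all_poly {ι : Type*} (l : List ι) (φ : ι → α → Bool) (h : ∀ i, PolyB D ctx (φ i)) :
    PolyB D ctx (fun x => l.all (fun i => φ i x)) := by
  induction l with
  | nil => exact PolyB.const true
  | cons i l ih => exact ((h i).and ih).congr (fun x _ => by simp)

theorem body_getD (I : Inst q) {e j : ℕ} (he : e < I.m) (hj : j < I.a + I.b + q * q) :
    ((List.range I.m).flatMap (blk I)).getD (e * (I.a + I.b + q * q) + j) false =
      (blk I e).getD j false :=
  Pool.Agent.Lib.Pa7c826t.getD_flatMap _ _ (blk I) (fun i _ => blk_length I i) he hj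

theorem body_src (I : Inst q) {e i : ℕ} (he : e < I.m) (hi : i < I.a) :
    ((List.range I.m).flatMap (blk I)).getD (e * (I.a + I.b + q * q) + i) false =
      decide (i = I.srcN e) := by
  rw [body_getD I he (by omega)]
  unfold blk
  rw [List.getD_append _ _ _ _ (by rw [oneHot_length]; exact hi), oneHot_getD hi]

theorem body_dst (I : Inst q) {e i : ℕ} (he : e < I.m) (hi : i < I.b) :
    ((List.range I.m).flatMap (blk I)).getD (e * (I.a + I.b + q * q) + (I.a + i)) false =
      decide (i = I.dstN e) := by
  rw [body_getD I he (by omega)]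
  unfold blk
  rw [List.getD_append_right _ _ _ _ (by rw [oneHot_length]; omega), oneHot_length,
    Nat.add_sub_cancel_left, List.getD_append _ _ _ _ (by rw [oneHot_length]; exact hi),
    oneHot_getD hi]

theorem body_perm (I : Inst q) {e : ℕ} (he : e < I.m) (i j : Fin q) :
    ((List.range I.m).flatMap (blk I)).getD (e * (I.a + I.b + q * q) +
      (I.a + I.b + ((i : ℕ) * q + (j : ℕ)))) false = decide (j = I.permN e i) := by
  have h1 : (i : ℕ) * q + (j : ℕ) < q * q := by
    have hi := i.2
    have hj := j.2
    calc (i : ℕ) * q + (j : ℕ) < (i : ℕ) * q + q := by omega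
      _ = ((i : ℕ) + 1) * q := by ring
      _ ≤ q * q := Nat.mul_le_mul_right _ hi
  rw [body_getD I he (by omega)]
  unfold blk
  rw [List.getD_append_right _ _ _ _ (by rw [oneHot_length]; omega), oneHot_length]
  have h2 : I.a + I.b + ((i : ℕ) * q + (j : ℕ)) - I.a = I.b + ((i : ℕ) * q + (j : ℕ)) := by omega
  rw [h2, List.getD_append_right _ _ _ _ (by rw [oneHot_length]; omega), oneHot_length,
    Nat.add_sub_cancel_left,
    Pool.Agent.Lib.Pa7c826t.getD_flatMap q q _ (fun i _ => oneHot_length q _) i.2 j.2,
    oneHot_getD j.2]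
  unfold pN
  rw [dif_pos i.2]
  simp only [Fin.eta, Fin.val_inj]

theorem poly_off (hw : PolyC D ctx (fun x => (w x).encode)) (hwa : PolyN D ctx (fun x => (w x).a))
    (hwb : PolyN D ctx (fun x => (w x).b)) {e i : α → ℕ} (he : PolyN D ctx e)
    (hi : PolyN D ctx i) :
    PolyB D ctx (fun x => ((List.range (w x).m).flatMap (blk (w x))).getD
      (e x * ((w x).a + (w x).b + q * q) + i x) false) :=
  PolyB.getD (poly_body hw) ((he.mul ((hwa.add hwb).add (PolyN.const (q * q)))).add hi)

end BitsAux

open BitsAux

theorem poly_a (hw : PolyC D ctx (fun x => (w x).encode)) : PolyN D ctx (fun x => (w x).a) :=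
  hw.takeTrue.congr (fun x _ => by rw [encode_eq, takeWhile_un])

theorem poly_b (hw : PolyC D ctx (fun x => (w x).encode)) : PolyN D ctx (fun x => (w x).b) :=
  hw.afterTrue.takeTrue.congr (fun x _ => by rw [encode_eq, afterTrue_un, takeWhile_un])

theorem poly_m (hw : PolyC D ctx (fun x => (w x).encode)) : PolyN D ctx (fun x => (w x).m) :=
  hw.afterTrue.afterTrue.takeTrue.congr (fun x _ => by
    rw [encode_eq, afterTrue_un, afterTrue_un, takeWhile_un])

theorem poly_src (hw : PolyC D ctx (fun x => (w x).encode)) {e i : α → ℕ} (he : PolyN D ctx e)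
    (hi : PolyN D ctx i) (h1 : ∀ x, D x → e x < (w x).m) (h2 : ∀ x, D x → i x < (w x).a) :
    PolyB D ctx (fun x => decide (i x = (w x).srcN (e x))) :=
  (poly_off hw (poly_a hw) (poly_b hw) he hi).congr (fun x hx => body_src _ (h1 x hx) (h2 x hx))

theorem poly_dst (hw : PolyC D ctx (fun x => (w x).encode)) {e i : α → ℕ} (he : PolyN D ctx e)
    (hi : PolyN D ctx i) (h1 : ∀ x, D x → e x < (w x).m) (h2 : ∀ x, D x → i x < (w x).b) :
    PolyB D ctx (fun x => decide (i x = (w x).dstN (e x))) :=
  (poly_off hw (poly_a hw) (poly_b hw) he ((poly_a hw).add hi)).congr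
    (fun x hx => body_dst _ (h1 x hx) (h2 x hx))

theorem poly_perm (hw : PolyC D ctx (fun x => (w x).encode)) {e : α → ℕ} (he : PolyN D ctx e)
    (h1 : ∀ x, D x → e x < (w x).m) (π : Equiv.Perm (Fin q)) :
    PolyB D ctx (fun x => decide ((w x).permN (e x) = π)) := by
  refine (all_poly (List.finRange q) (fun i x => ((List.range (w x).m).flatMap (blk (w x))).getD
      (e x * ((w x).a + (w x).b + q * q) + ((w x).a + (w x).b + ((i : ℕ) * q + (π i : ℕ)))) false)
      (fun i => ?_)).congr (fun x hx => ?_)
  · exact poly_off hw (poly_a hw) (poly_b hw) he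
      (((poly_a hw).add (poly_b hw)).add (PolyN.const ((i : ℕ) * q + (π i : ℕ))))
  · rw [Bool.eq_iff_iff]
    simp only [List.all_eq_true, decide_eq_true_eq, List.mem_finRange, true_implies]
    constructor
    · intro h
      ext i
      have h3 := h i
      rw [body_perm _ (h1 x hx) i (π i)] at h3
      rw [decide_eq_true_eq] at h3
      rw [h3]
    · intro h i
      rw [body_perm _ (h1 x hx) i (π i), decide_eq_true_eq, h]

end Pool.Agent.P325n
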