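import Mathlib
import Pool.Agent.Lib.P325n.Defs

/-!
# Local replacement maps

A local replacement replaces every left vertex by a fixed number of copies, every right vertex by a
fixed number of copies and every edge by a fixed number of edges between the copies of its ends. The long
code game `longGame t J I` of `ConstraintDichotomy` is of this form.
-/

open Finset

namespace Pool.Agent.P325n

open Pool.Agent.P325f1f.Dich

section congr

variable {U W Ω ι U' W' ι' : Type} [Fintype ι] [Fintype ι']

/-- The value of a game does not change if the vertices and edges are renamed. -/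
theorem value_congr (I : Game U W Ω ι) (I' : Game U' W' Ω ι') (eU : U ≃ U') (eW : W ≃ W')
    (eι : ι ≃ ι') (h1 : ∀ e, I'.src (eι e) = eU (I.src e)) (h2 : ∀ e, I'.dst (eι e) = eW (I.dst e))
    (h3 : ∀ e, I'.perm (eι e) = I.perm e) : I'.value = I.value := by
  classical
  have key : ∀ (x : U' → Ω) (y : W' → Ω), I'.satFrac x y = I.satFrac (x ∘ eU) (y ∘ eW) := by
    intro x y
    unfold Game.satFrac
    rw [Fintype.card_congr eι.symm]
    congr 2
    refine (Finset.card_bij (fun e _ => eι e) ?_ ?_ ?_).symm
    · intro e he
      simp only [mem_filter, mem_univ, true_and, Function.comp_apply] at he ⊢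
      rw [h1, h2, h3]
      exact he
    · intro e _ e' _ h
      exact eι.injective h
    · intro e' he'
      refine ⟨eι.symm e', ?_, eι.apply_symm_apply e'⟩
      simp only [mem_filter, mem_univ, true_and, Function.comp_apply] at he' ⊢
      rw [← h1, ← h2, ← h3, eι.apply_symm_apply]
      exact he'
  unfold Game.value
  refine (Equiv.iSup_congr ((Equiv.arrowCongr eU (Equiv.refl Ω)).prodCongr
    (Equiv.arrowCongr eW (Equiv.refl Ω))) ?_).symm
  rintro ⟨x, y⟩
  rw [key]
  congr 1 <;> · ext v; simp

end congr

/-- The game obtained by a local replacement: copies of the left vertices are numbered by `A`, copies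
of the right vertices by `B`, copies of the edges by `C`. -/
def localGame {U W Λ Ω ι A B C : Type} (s : C → A) (d : C → Equiv.Perm Λ → B)
    (σ : C → Equiv.Perm Ω) (I : Game U W Λ ι) : Game (U × A) (W × B) Ω (ι × C) where
  src p := (I.src p.1, s p.2)
  dst p := (I.dst p.1, d p.2 (I.perm p.1))
  perm p := σ p.2

/-- The data of a local replacement that turns instances over `Fin q` into instances over
`Fin q'`. -/
structure Loc (q q' : ℕ) where
  /-- number of copies of a left vertex -/
  A : ℕ
  /-- number of copies of a right vertex -/
  B : ℕ
  /-- number of copies of an edge -/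
  C : ℕ
  /-- every edge is replaced by at least one edge -/
  pos : 0 < C
  /-- left end -/
  s : Fin C → Fin A
  /-- right end, depends on the constraint of the edge -/
  d : Fin C → Equiv.Perm (Fin q) → Fin B
  /-- new constraint -/
  σ : Fin C → Equiv.Perm (Fin q')

/-- Apply a local replacement to an instance: the copy `j` of the vertex `i` is the vertex
`j + A * i`, the copy `c` of the edge `e` is the edge `c + C * e`. -/
def Loc.app {q q' : ℕ} (R : Loc q q') (I : Inst q) : Inst q' where
  a := I.a * R.A
  b := I.b * R.B
  m := I.m * R.C
  pos := Nat.mul_pos I.pos R.pos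
  game :=
    { src := fun e => finProdFinEquiv (I.game.src (finProdFinEquiv.symm e).1,
        R.s (finProdFinEquiv.symm e).2)
      dst := fun e => finProdFinEquiv (I.game.dst (finProdFinEquiv.symm e).1,
        R.d (finProdFinEquiv.symm e).2 (I.game.perm (finProdFinEquiv.symm e).1))
      perm := fun e => R.σ (finProdFinEquiv.symm e).2 }

theorem Loc.app_value {q q' : ℕ} (R : Loc q q') (I : Inst q) :
    (R.app I).game.value = (localGame R.s R.d R.σ I.game).value := by
  refine value_congr _ _ finProdFinEquiv finProdFinEquiv finProdFinEquiv ?_ ?_ ?_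
  · intro e
    show finProdFinEquiv (I.game.src (finProdFinEquiv.symm (finProdFinEquiv e)).1,
      R.s (finProdFinEquiv.symm (finProdFinEquiv e)).2) = _
    rw [Equiv.symm_apply_apply]
    rfl
  · intro e
    show finProdFinEquiv (I.game.dst (finProdFinEquiv.symm (finProdFinEquiv e)).1,
      R.d (finProdFinEquiv.symm (finProdFinEquiv e)).2
        (I.game.perm (finProdFinEquiv.symm (finProdFinEquiv e)).1)) = _
    rw [Equiv.symm_apply_apply]
    rfl
  · intro e
    show R.σ (finProdFinEquiv.symm (finProdFinEquiv e)).2 = _
    rw [Equiv.symm_apply_apply]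
    rfl

/-- Local replacements with finite types of copies have the same values as their numbered
forms. -/
theorem exists_loc {q q' : ℕ} {A B C : Type} [Fintype A] [Fintype B] [Fintype C] [Nonempty C]
    (s : C → A) (d : C → Equiv.Perm (Fin q) → B) (σ : C → Equiv.Perm (Fin q')) :
    ∃ R : Loc q q', (∀ (I : Inst q) (e : Fin (R.app I).m), ∃ c, (R.app I).game.perm e = σ c) ∧
      ∀ I : Inst q, (R.app I).game.value = (localGame s d σ I.game).value := by
  classical
  refine ⟨⟨Fintype.card A, Fintype.card B, Fintype.card C, Fintype.card_pos,
    fun c => Fintype.equivFin A (s ((Fintype.equivFin C).symm c)),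
    fun c π => Fintype.equivFin B (d ((Fintype.equivFin C).symm c) π),
    fun c => σ ((Fintype.equivFin C).symm c)⟩, ?_, ?_⟩
  · intro I e
    exact ⟨_, rfl⟩
  · intro I
    rw [Loc.app_value]
    refine value_congr _ _ ((Equiv.refl _).prodCongr (Fintype.equivFin A))
      ((Equiv.refl _).prodCongr (Fintype.equivFin B))
      ((Equiv.refl _).prodCongr (Fintype.equivFin C)) ?_ ?_ ?_
    · intro e
      simp [localGame]
    · intro e
      simp [localGame]
    · intro e
      simp [localGame]

end Pool.Agent.P325n
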