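import Mathlib
import Pool.Agent.Lib.P325n.Eqv
import Pool.Agent.Lib.P325n.Bits
import Pool.Agent.Lib.Pa7c826.Transfer

/-!
# Local replacements are computable in polynomial time
-/

namespace Pool.Agent.P325n

open Pool.Agent.Lib.PolyTime Pool.Agent.P325f1f.Dich
open Pool.Agent.Lib.Pa7c826 (up upN last)

namespace OutAux

/-- Case distinction over finitely many values. -/
theorem polyC_cases {α β : Type*} [DecidableEq β] (l : List β) :
    ∀ {D : α → Prop} {ctx : List (α → List Bool)} {f : α → β}
      (_ : ∀ b, PolyB D ctx (fun x => decide (f x = b))) (_ : ∀ x, D x → f x ∈ l)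
      {G : β → α → List Bool} (_ : ∀ b, PolyC D ctx (G b)), PolyC D ctx (fun x => G (f x) x) := by
  induction l with
  | nil =>
    intro D ctx f hf hmem G hG
    exact PolyC.nil.congr (fun x hx => absurd (hmem x hx) (by simp))
  | cons b l ih =>
    intro D ctx f hf hmem G hG
    have h := PolyC.ite (hf b) ((hG b).mono fun _ h => h.1)
      (ih (D := fun x => D x ∧ decide (f x = b) = false)
        (fun b' => (hf b').mono fun _ h => h.1) (fun x hx => by
          have h1 := hmem x hx.1
          have h2 : f x ≠ b := by simpa using hx.2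
          rcases List.mem_cons.1 h1 with h3 | h3
          · exact absurd h3 h2
          · exact h3) (fun b' => (hG b').mono fun _ h => h.1))
    refine h.congr (fun x _ => ?_)
    by_cases hx : f x = b
    · simp [hx]
    · simp [hx]

/-- Case distinction over the values of a unary number below a constant. -/
theorem polyC_cases_lt {α : Type*} {D : α → Prop} {ctx : List (α → List Bool)} {c : α → ℕ}
    (hc : PolyN D ctx c) {C : ℕ} (hlt : ∀ x, D x → c x < C) {G : ℕ → α → List Bool}
    (hG : ∀ b, PolyC D ctx (G b)) : PolyC D ctx (fun x => G (c x) x) :=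
  polyC_cases (List.range C) (fun b => PolyB.natEq hc (PolyN.const b))
    (fun x hx => List.mem_range.2 (hlt x hx)) hG

theorem flatMap_finRange {n : ℕ} (g : Fin n → List Bool) (h : ℕ → List Bool)
    (e : ∀ i : Fin n, g i = h i) : (List.finRange n).flatMap g = (List.range n).flatMap h := by
  have h1 : g = fun i : Fin n => h (i : ℕ) := funext e
  have h2 : (List.finRange n).map (fun i : Fin n => (i : ℕ)) = List.range n := by
    simp
  rw [h1, ← h2, List.flatMap_map]

variable {q q' : ℕ}

/-- left ends as natural numbers -/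
def sN (R : Loc q q') (c : ℕ) : ℕ := if h : c < R.C then (R.s ⟨c, h⟩ : ℕ) else 0

/-- right ends as natural numbers -/
def dN (R : Loc q q') (c : ℕ) (π : Equiv.Perm (Fin q)) : ℕ :=
  if h : c < R.C then (R.d ⟨c, h⟩ π : ℕ) else 0

/-- the matrix of the constraint -/
def matN (R : Loc q q') (c : ℕ) : List Bool :=
  if h : c < R.C then (List.finRange q').flatMap (fun i => oneHot q' (R.σ ⟨c, h⟩ i)) else []

/-- the block of an edge -/
def blk (R : Loc q q') (I : Inst q) (k : ℕ) : List Bool :=
  (List.range (I.a * R.A)).map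
      (fun i => decide (i / R.A = I.srcN (k / R.C)) && decide (i % R.A = sN R (k % R.C))) ++
    ((List.range (I.b * R.B)).map
      (fun i => decide (i / R.B = I.dstN (k / R.C)) &&
        decide (i % R.B = dN R (k % R.C) (I.permN (k / R.C)))) ++ matN R (k % R.C))

theorem oneHot_eq {a A x s : ℕ} (hs : s < A) :
    oneHot (a * A) (s + A * x) =
      (List.range (a * A)).map (fun i => decide (i / A = x) && decide (i % A = s)) := by
  unfold oneHot
  refine List.map_congr_left fun i _ => ?_
  rw [Bool.eq_iff_iff]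
  simp only [decide_eq_true_eq, Bool.and_eq_true]
  constructor
  · rintro rfl
    refine ⟨?_, ?_⟩
    · rw [Nat.add_mul_div_left _ _ (by omega), Nat.div_eq_of_lt hs, zero_add]
    · rw [Nat.add_mul_mod_self_left, Nat.mod_eq_of_lt hs]
  · rintro ⟨h1, h2⟩
    rw [← h1, ← h2, Nat.mod_add_div]

theorem encode_app (R : Loc q q') (I : Inst q) :
    (R.app I).encode = un (I.a * R.A) ++ (false :: (un (I.b * R.B) ++ (false ::
      (un (I.m * R.C) ++ (false :: (List.range (I.m * R.C)).flatMap (blk R I)))))) := by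
  unfold Inst.encode un
  congr 6
  refine flatMap_finRange (n := I.m * R.C) _ _ fun e => ?_
  have hC := R.pos
  have he : (e : ℕ) < I.m * R.C := e.2
  have h1 : (e : ℕ) / R.C < I.m := (Nat.div_lt_iff_lt_mul hC).2 he
  have h2 : (e : ℕ) % R.C < R.C := Nat.mod_lt _ hC
  have e1 : (finProdFinEquiv.symm e).1 = ⟨(e : ℕ) / R.C, h1⟩ := rfl
  have e2 : (finProdFinEquiv.symm e).2 = ⟨(e : ℕ) % R.C, h2⟩ := rfl
  have k1 : I.srcN ((e : ℕ) / R.C) = I.game.src ⟨(e : ℕ) / R.C, h1⟩ := by
    simp [Inst.srcN, h1]
  have k2 : I.dstN ((e : ℕ) / R.C) = I.game.dst ⟨(e : ℕ) / R.C, h1⟩ := by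
    simp [Inst.dstN, h1]
  have k3 : I.permN ((e : ℕ) / R.C) = I.game.perm ⟨(e : ℕ) / R.C, h1⟩ := by
    simp [Inst.permN, h1]
  have k4 : sN R ((e : ℕ) % R.C) = R.s ⟨(e : ℕ) % R.C, h2⟩ := by
    simp [sN, h2]
  have k5 : ∀ π, dN R ((e : ℕ) % R.C) π = R.d ⟨(e : ℕ) % R.C, h2⟩ π := by
    intro π
    simp [dN, h2]
  have k6 : matN R ((e : ℕ) % R.C) =
      (List.finRange q').flatMap (fun i => oneHot q' (R.σ ⟨(e : ℕ) % R.C, h2⟩ i)) := by
    simp [matN, h2]
  unfold blk
  rw [k1, k2, k3, k4, k5, k6, ← oneHot_eq (R.s ⟨(e : ℕ) % R.C, h2⟩).2,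
    ← oneHot_eq (R.d ⟨(e : ℕ) % R.C, h2⟩ _).2]
  rfl

end OutAux

open OutAux

theorem poly_app {q q' : ℕ} (R : Loc q q') :
    PolyC (fun _ : Inst q => True) [Inst.encode] (fun I => (R.app I).encode) := by
  have hC := R.pos
  have hw : PolyC (fun _ : Inst q => True) [Inst.encode] (fun I => I.encode) :=
    PolyC.var (by simp)
  have ha := poly_a (w := fun I : Inst q => I) hw
  have hb := poly_b (w := fun I : Inst q => I) hw
  have hm := poly_m (w := fun I : Inst q => I) hw
  have haA := ha.mul (PolyN.const R.A)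
  have hbB := hb.mul (PolyN.const R.B)
  have hmC := hm.mul (PolyN.const R.C)
  -- level 1: the edge number
  have hw1 := up (n := fun I : Inst q => I.m * R.C) hw
  have hk := last (D := fun _ : Inst q => True) (ctx := [Inst.encode])
    (n := fun I : Inst q => I.m * R.C)
  have hc := Pool.Agent.Lib.Pa7c826.PolyN.mod hk (PolyN.const R.C) (fun _ _ => hC)
  have he := Pool.Agent.Lib.Pa7c826.PolyN.div hk (PolyN.const R.C) (fun _ _ => hC)
  have haA1 := upN (n := fun I : Inst q => I.m * R.C) haA
  have hbB1 := upN (n := fun I : Inst q => I.m * R.C) hbB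
  have hblk : PolyC (fun p : Inst q × ℕ => True ∧ p.2 < p.1.m * R.C)
      (Pool.Agent.Lib.PolyTime.lift [Inst.encode] ++ [fun p => un p.2]) (fun p => blk R p.1 p.2) := by
    refine PolyC.append ?_ (PolyC.append ?_ ?_)
    · -- left end
      refine PolyC.map_range (n := fun p : Inst q × ℕ => p.1.a * R.A)
        (φ := fun r => decide (r.2 / R.A = r.1.1.srcN (r.1.2 / R.C)) &&
          decide (r.2 % R.A = sN R (r.1.2 % R.C))) haA1 ?_
      have hw2 := up (n := fun p : Inst q × ℕ => p.1.a * R.A) hw1
      have hc2 := upN (n := fun p : Inst q × ℕ => p.1.a * R.A) hc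
      have he2 := upN (n := fun p : Inst q × ℕ => p.1.a * R.A) he
      have hi := last (D := fun p : Inst q × ℕ => True ∧ p.2 < p.1.m * R.C)
        (ctx := Pool.Agent.Lib.PolyTime.lift [Inst.encode] ++ [fun p => un p.2])
        (n := fun p : Inst q × ℕ => p.1.a * R.A)
      have hA : ∀ r : (Inst q × ℕ) × ℕ, ((True ∧ r.1.2 < r.1.1.m * R.C) ∧
          r.2 < r.1.1.a * R.A) → 0 < R.A := by
        intro r hr
        rcases Nat.eq_zero_or_pos R.A with h | h
        · rw [h, mul_zero] at hr
          omega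
        · exact h
      have hid := Pool.Agent.Lib.Pa7c826.PolyN.div hi (PolyN.const R.A) hA
      have him := Pool.Agent.Lib.Pa7c826.PolyN.mod hi (PolyN.const R.A) hA
      refine PolyB.and ?_ ?_
      · refine poly_src (w := fun r : (Inst q × ℕ) × ℕ => r.1.1) hw2 he2 hid ?_ ?_
        · intro r hr
          exact Nat.div_lt_of_lt_mul (by rw [mul_comm]; exact hr.1.2)
        · intro r hr
          exact Nat.div_lt_of_lt_mul (by rw [mul_comm]; exact hr.2)
      · exact polyC_cases_lt (G := fun c r => [decide (r.2 % R.A = sN R c)]) hc2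
          (fun r _ => Nat.mod_lt _ hC) (fun b => PolyB.natEq him (PolyN.const _))
    · -- right end
      refine PolyC.map_range (n := fun p : Inst q × ℕ => p.1.b * R.B)
        (φ := fun r => decide (r.2 / R.B = r.1.1.dstN (r.1.2 / R.C)) &&
          decide (r.2 % R.B = dN R (r.1.2 % R.C) (r.1.1.permN (r.1.2 / R.C)))) hbB1 ?_
      have hw2 := up (n := fun p : Inst q × ℕ => p.1.b * R.B) hw1
      have hc2 := upN (n := fun p : Inst q × ℕ => p.1.b * R.B) hc
      have he2 := upN (n := fun p : Inst q × ℕ => p.1.b * R.B) he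
      have hi := last (D := fun p : Inst q × ℕ => True ∧ p.2 < p.1.m * R.C)
        (ctx := Pool.Agent.Lib.PolyTime.lift [Inst.encode] ++ [fun p => un p.2])
        (n := fun p : Inst q × ℕ => p.1.b * R.B)
      have hA : ∀ r : (Inst q × ℕ) × ℕ, ((True ∧ r.1.2 < r.1.1.m * R.C) ∧
          r.2 < r.1.1.b * R.B) → 0 < R.B := by
        intro r hr
        rcases Nat.eq_zero_or_pos R.B with h | h
        · rw [h, mul_zero] at hr
          omega
        · exact h
      have hid := Pool.Agent.Lib.Pa7c826.PolyN.div hi (PolyN.const R.B) hA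
      have him := Pool.Agent.Lib.Pa7c826.PolyN.mod hi (PolyN.const R.B) hA
      refine PolyB.and ?_ ?_
      · refine poly_dst (w := fun r : (Inst q × ℕ) × ℕ => r.1.1) hw2 he2 hid ?_ ?_
        · intro r hr
          exact Nat.div_lt_of_lt_mul (by rw [mul_comm]; exact hr.1.2)
        · intro r hr
          exact Nat.div_lt_of_lt_mul (by rw [mul_comm]; exact hr.2)
      · refine polyC_cases_lt (G := fun c r =>
          [decide (r.2 % R.B = dN R c (r.1.1.permN (r.1.2 / R.C)))]) hc2
          (fun r _ => Nat.mod_lt _ hC) (fun b => ?_)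
        exact polyC_cases (Finset.univ : Finset (Equiv.Perm (Fin q))).toList
          (f := fun r : (Inst q × ℕ) × ℕ => r.1.1.permN (r.1.2 / R.C))
          (G := fun π r => [decide (r.2 % R.B = dN R b π)])
          (fun π => poly_perm (w := fun r : (Inst q × ℕ) × ℕ => r.1.1) hw2 he2
            (fun r hr => Nat.div_lt_of_lt_mul (by rw [mul_comm]; exact hr.1.2)) π)
          (fun r _ => by simp) (fun π => PolyB.natEq him (PolyN.const _))
    · exact polyC_cases_lt (G := fun c _ => matN R c) hc (fun r _ => Nat.mod_lt _ hC)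
        (fun b => PolyC.const _)
  refine ((PolyC.append haA (PolyC.cons false (PolyC.append hbB (PolyC.cons false
    (PolyC.append hmC (PolyC.cons false (PolyC.flatMap_range hmC hblk))))))).congr
      (fun I _ => ?_))
  rw [encode_app]

end Pool.Agent.P325n
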