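import Mathlib
import Pool.Agent.Lib.P325n.Defs
import Pool.Agent.Lib.Pa7c826.Transfer

/-!
# NP-hardness is inherited along polynomial-time reductions
-/

namespace Pool.Agent.P325n

open Pool.Agent.Lib.PolyTime Pool.Agent.Lib.Pa7c826 Pool.Agent.P325f1f.Dich

variable {q q' : ℕ}

theorem NPHard.map {yes no : Set (Inst q)} {yes' no' : Set (Inst q')} (h : NPHard yes no)
    (g : Inst q → Inst q')
    (hg : PolyC (fun _ : Inst q => True) [Inst.encode] (fun I => (g I).encode))
    (hy : ∀ I ∈ yes, g I ∈ yes') (hn : ∀ I ∈ no, g I ∈ no') : NPHard yes' no' := by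
  intro L hL
  obtain ⟨f, hf, h1, h2⟩ := h L hL
  have hfC := polyC_of_TM2 id Inst.encode f hf
  have hg' := hg.reindex (D' := fun _ : List Bool => True) f (fun _ _ => trivial)
  have hc : PolyC (fun _ : List Bool => True) [id] (fun a => (g (f a)).encode) := by
    refine PolyC.comp hg' ?_
    intro t ht
    simp only [List.map_cons, List.map_nil, List.mem_singleton] at ht
    subst ht
    exact hfC
  refine ⟨fun x => g (f x), ?_, fun x hx => hy _ (h1 x hx), fun x hx => hn _ (h2 x hx)⟩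
  obtain ⟨⟨tm, time, hout⟩⟩ := PolyC.toTM2 id (D := fun _ => True)
    (fun x => g (f x)) Inst.encode hc
  exact ⟨⟨tm, time, fun x => hout ⟨x, trivial⟩⟩⟩

theorem NPHard.mono {yes no yes' no' : Set (Inst q)} (h : NPHard yes no) (hy : yes ⊆ yes')
    (hn : no ⊆ no') : NPHard yes' no' := by
  intro L hL
  obtain ⟨f, hf, h1, h2⟩ := h L hL
  exact ⟨f, hf, fun x hx => hy (h1 x hx), fun x hx => hn (h2 x hx)⟩

theorem inNP_empty : InNP ∅ := by
  refine ⟨0, fun _ => false, ?_, fun x => by simp⟩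
  obtain ⟨⟨tm, time, hout⟩⟩ := PolyC.toTM2 pairCode (D := fun _ => True)
    (fun _ : List Bool × List Bool => false) (fun b => [b]) (PolyC.const [false])
  exact ⟨⟨tm, time, fun x => hout ⟨x, trivial⟩⟩⟩

theorem NPHard.exists_no {yes no : Set (Inst q)} (h : NPHard yes no) : ∃ I, I ∈ no := by
  obtain ⟨f, _, _, h2⟩ := h ∅ inNP_empty
  exact ⟨f [], h2 [] (Set.notMem_empty _)⟩

end Pool.Agent.P325n
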