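import Mathlib
import Pool.Agent.Lib.P325f1f.Dich.Games

/-!
# The long code game played with a spread family of permutations
-/

open Finset
open scoped BigOperators

namespace Pool.Agent.P325n

open Pool.Agent.P325f1f.Dich

variable {Ω κ : Type} [Fintype Ω] [DecidableEq Ω] [Fintype κ]

/-- The average over `k` of the mass on pairs of heavy labels. -/
theorem heavy_spread (σ : κ → Equiv.Perm Ω) (v : ℝ)
    (hσ : ∀ ω ω', (𝔼 k, if σ k ω = ω' then (1 : ℝ) else 0) ≤ v) (μ ν : Ω → ℝ)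
    (hμ : ∀ ω, 0 ≤ μ ω) (hν : ∀ ω, 0 ≤ ν ω) (hμ1 : ∑ ω, μ ω = 1) (hν1 : ∑ ω, ν ω = 1) (η : ℝ)
    (hη : 0 < η) :
    (𝔼 k, ∑ ω, μ ω * if η < ν (σ k ω) then (1 : ℝ) else 0) ≤ v / η := by
  rw [Finset.expect_sum_comm]
  have h1 : ∀ ω, (𝔼 k, μ ω * if η < ν (σ k ω) then (1 : ℝ) else 0) ≤ μ ω * (v / η) := by
    intro ω
    rw [← Finset.mul_expect]
    refine mul_le_mul_of_nonneg_left ?_ (hμ ω)
    have h2 : ∀ k, (if η < ν (σ k ω) then (1 : ℝ) else 0) =
        ∑ ω', (if η < ν ω' then (1 : ℝ) else 0) * (if σ k ω = ω' then (1 : ℝ) else 0) := by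
      intro k
      rw [Finset.sum_eq_single (σ k ω)]
      · rw [if_pos (rfl : σ k ω = σ k ω), mul_one]
      · intro c _ hc
        rw [if_neg (fun h : σ k ω = c => hc h.symm), mul_zero]
      · intro h
        exact absurd (mem_univ _) h
    simp_rw [h2]
    rw [Finset.expect_sum_comm]
    have h3 : ∀ ω', (𝔼 k, (if η < ν ω' then (1 : ℝ) else 0) *
        (if σ k ω = ω' then (1 : ℝ) else 0)) ≤ (ν ω' / η) * v := by
      intro ω'
      rw [← Finset.mul_expect]
      have h4 := hσ ω ω'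
      have h5 : 0 ≤ 𝔼 k, (if σ k ω = ω' then (1 : ℝ) else 0) :=
        Finset.expect_nonneg (fun k _ => by split_ifs <;> norm_num)
      have h6 : (if η < ν ω' then (1 : ℝ) else 0) ≤ ν ω' / η := by
        by_cases h : η < ν ω'
        · rw [if_pos h, one_le_div hη]
          exact h.le
        · rw [if_neg h]
          exact div_nonneg (hν ω') hη.le
      exact mul_le_mul h6 h4 h5 (div_nonneg (hν ω') hη.le)
    refine (Finset.sum_le_sum (fun ω' _ => h3 ω')).trans (le_of_eq ?_)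
    rw [← Finset.sum_mul, ← Finset.sum_div, hν1]
    ring
  refine (Finset.sum_le_sum (fun ω _ => h1 ω)).trans (le_of_eq ?_)
  rw [← Finset.sum_mul, hμ1, one_mul]

/-- Soundness of the long code game played with a spread family. -/
theorem sound_spread [Nonempty Ω] [Nonempty κ] (σ : κ → Equiv.Perm Ω) (t : ℕ) (ht : 1 ≤ t)
    (θ : ℝ) (hθ0 : 0 < θ) (hθ1 : θ ≤ 1) (v : ℝ) (hv : 0 ≤ v)
    (hσ : ∀ ω ω', (𝔼 k, if σ k ω = ω' then (1 : ℝ) else 0) ≤ v) :
    ∃ M : ℝ, ∀ (U W Λ ι : Type) [Fintype Λ] [DecidableEq Λ] [Nonempty Λ] [Fintype ι]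
      [Nonempty ι] (I : Game U W Λ ι), (longGame t σ I).value ≤
        v / (θ ^ 2) ^ (4 * t) + 5 * θ + M * I.value := by
  have hη : 0 < (θ ^ 2) ^ (4 * t) := by positivity
  refine sound_gen σ t ht θ hθ0 hθ1 (v / (θ ^ 2) ^ (4 * t)) (by positivity) ?_
  intro μ ν hμ hν hμ1 hν1
  refine le_trans (Finset.expect_le_expect (fun k _ => Finset.sum_le_sum (fun ω _ => ?_)))
    (heavy_spread σ v hσ μ ν hμ hν hμ1 hν1 _ hη)
  split_ifs with h1 h2
  · rw [mul_one]
    exact min_le_left _ _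
  · exact absurd h1.2 h2
  · rw [mul_one]
    exact hμ ω
  · rw [mul_zero]

end Pool.Agent.P325n
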