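import Mathlib
import Pool.Agent.Lib.P325n.Sound
import Pool.Agent.Lib.P325n.Out
import Pool.Agent.Lib.P325n.Closure

/-!
# The dichotomy for families of constraint permutations
-/

open Finset
open scoped BigOperators

namespace Pool.Agent.P325n

open Pool.Agent.P325f1f.Dich

theorem expect_le_of_card {n : ℕ} (hn : 0 < n) {q : ℕ} (σ : Fin n → Equiv.Perm (Fin q)) (δ : ℚ)
    (i j : Fin q) (h : ((univ.filter (fun k => σ k i = j)).card : ℚ) ≤ δ * n) :
    (𝔼 k, if σ k i = j then (1 : ℝ) else 0) ≤ (δ : ℝ) := by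
  rw [Fintype.expect_eq_sum_div_card, Finset.sum_boole, Fintype.card_fin,
    div_le_iff₀ (by exact_mod_cast hn)]
  have h1 : (((univ.filter (fun k => σ k i = j)).card : ℚ) : ℝ) ≤ ((δ * n : ℚ) : ℝ) := by
    exact_mod_cast h
  push_cast at h1
  exact h1

/-- A game of value at most `δ` gives a list of permutations with spread `δ`. -/
theorem card_le_of_value {q : ℕ} (I : Inst q) (δ : ℚ) (hv : I.game.value ≤ (δ : ℝ)) (i j : Fin q) :
    ((univ.filter (fun k => I.game.perm k i = j)).card : ℚ) ≤ δ * I.m := by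
  have hm : Nonempty (Fin I.m) := ⟨⟨0, I.pos⟩⟩
  have h1 : I.game.satFrac (fun _ => i) (fun _ => j) ≤ ((δ : ℚ) : ℝ) :=
    (le_value I.game _ _).trans hv
  have h2 : I.game.satFrac (fun _ => i) (fun _ => j) =
      ((univ.filter (fun k => I.game.perm k i = j)).card : ℝ) / I.m := by
    rw [satFrac_eq, Fintype.expect_eq_sum_div_card, Finset.sum_boole, Fintype.card_fin]
  have hm0 : (0 : ℝ) < I.m := by exact_mod_cast I.pos
  rw [h2, div_le_iff₀ hm0] at h1
  have h3 : ((univ.filter (fun k => I.game.perm k i = j)).card : ℝ) ≤ ((δ * I.m : ℚ) : ℝ) := by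
    push_cast
    exact h1
  exact_mod_cast h3

/-- Games over a spread family simulate all unique games. -/
theorem universal (F : (q : ℕ) → Set (Set (Equiv.Perm (Fin q)))) (hs : Spread F) (ε δ : ℚ)
    (hε : 0 < ε) (hδ : 0 < δ) : ∃ q' : ℕ, 0 < q' ∧ ∃ P ∈ F q', ∃ M : ℝ, 0 ≤ M ∧
      ∀ q : ℕ, 0 < q → ∃ R : Loc q q', ∀ I : Inst q, R.app I ∈ Over P ∧
        (1 - (ε : ℝ)) * I.game.value ≤ (R.app I).game.value ∧
          (R.app I).game.value ≤ δ + M * I.game.value := by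
  have hεr : (0 : ℝ) < ε := by exact_mod_cast hε
  have hδr : (0 : ℝ) < δ := by exact_mod_cast hδ
  -- the number of marks
  obtain ⟨t, ht⟩ := exists_nat_gt (1 / (ε : ℝ))
  have ht0 : (0 : ℝ) < t := lt_trans (by positivity) ht
  have ht1 : 1 ≤ t := by
    have : 0 < t := by exact_mod_cast ht0
    omega
  have hinv : 1 / (t : ℝ) ≤ ε := by
    rw [div_le_iff₀ ht0]
    rw [div_lt_iff₀ hεr] at ht
    linarith
  -- the scale
  obtain ⟨θ, hθ⟩ : ∃ θ : ℝ, θ = min (1 : ℝ) ((δ : ℝ) / 10) := ⟨_, rfl⟩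
  have hθ0 : 0 < θ := by rw [hθ]; exact lt_min one_pos (by positivity)
  have hθ1 : θ ≤ 1 := by rw [hθ]; exact min_le_left _ _
  have hθδ : 5 * θ ≤ δ / 2 := by
    have : θ ≤ δ / 10 := by rw [hθ]; exact min_le_right _ _
    linarith
  have hη : 0 < (θ ^ 2) ^ (4 * t) := by positivity
  obtain ⟨δ1, hδ1, hδ1'⟩ := exists_rat_btwn (show (0 : ℝ) < δ / 2 * (θ ^ 2) ^ (4 * t) by positivity)
  have hδ10 : 0 < δ1 := by exact_mod_cast hδ1
  obtain ⟨q1, hq1, P, hP, n, hn, σ, hσP, hσ⟩ := hs δ1 hδ10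
  have hne1 : Nonempty (Fin q1) := ⟨⟨0, hq1⟩⟩
  have hnen : Nonempty (Fin n) := ⟨⟨0, hn⟩⟩
  obtain ⟨M, hM⟩ := sound_spread σ t ht1 θ hθ0 hθ1 (δ1 : ℝ) hδ1.le
    (fun i j => expect_le_of_card hn σ δ1 i j (hσ i j))
  refine ⟨q1, hq1, P, hP, |M|, abs_nonneg M, ?_⟩
  intro q hq
  have hneq : Nonempty (Fin q) := ⟨⟨0, hq⟩⟩
  have hneC : Nonempty (Fin n × (Fin q → Fin q1) × (Fin q → Fin t × Fin q1)) :=
    ⟨(⟨0, hn⟩, fun _ => ⟨0, hq1⟩, fun _ => (⟨0, ht1⟩, ⟨0, hq1⟩))⟩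
  obtain ⟨R, hR1, hR2⟩ := exists_loc (q := q) (q' := q1)
    (A := Fin q → Fin q1) (B := Fin q → Fin q1)
    (C := Fin n × (Fin q → Fin q1) × (Fin q → Fin t × Fin q1))
    (fun k => k.2.1) (fun k π i => σ k.1 (mix k.2.1 k.2.2 (π.symm i))) (fun k => σ k.1)
  have hval : ∀ I : Inst q, (R.app I).game.value = (longGame t σ I.game).value := hR2
  refine ⟨R, fun I => ⟨?_, ?_, ?_⟩⟩
  · intro e
    obtain ⟨k, hk⟩ := hR1 I e
    rw [hk]
    exact hσP _
  · rw [hval]
    have hm : Nonempty (Fin I.m) := ⟨⟨0, I.pos⟩⟩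
    refine le_trans ?_ (complete t ht1 σ I.game)
    exact mul_le_mul_of_nonneg_right (by linarith) (value_nonneg I.game)
  · rw [hval]
    have hm : Nonempty (Fin I.m) := ⟨⟨0, I.pos⟩⟩
    refine (hM _ _ _ _ I.game).trans ?_
    have h2 := value_nonneg I.game
    have h3 : (δ1 : ℝ) / (θ ^ 2) ^ (4 * t) ≤ δ / 2 := by
      rw [div_le_iff₀ hη]
      exact hδ1'.le
    have h4 : M * I.game.value ≤ |M| * I.game.value :=
      mul_le_mul_of_nonneg_right (le_abs_self M) h2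
    linarith

theorem gapHard_all (c : ℚ) (F : (q : ℕ) → Set (Set (Equiv.Perm (Fin q))))
    (h : GapHard c F) : GapHard c allPerms := by
  intro ε δ hε hδ hεδ
  obtain ⟨q, hq, P, _, hhard⟩ := h ε δ hε hδ hεδ
  refine ⟨q, hq, Set.univ, rfl, hhard.mono ?_ ?_⟩
  · rintro I ⟨_, h2⟩
    exact ⟨fun _ => Set.mem_univ _, h2⟩
  · rintro I ⟨_, h2⟩
    exact ⟨fun _ => Set.mem_univ _, h2⟩

/-- A family whose gap problem is hard is spread. -/
theorem spread_of_gapHard (c : ℚ) (hc0 : 0 < c) (F : (q : ℕ) → Set (Set (Equiv.Perm (Fin q))))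
    (h : GapHard c F) : Spread F := by
  intro δ hδ
  have hd : 0 < min δ (c / 4) := lt_min hδ (by linarith)
  obtain ⟨q, hq, P, hP, hhard⟩ := h (c / 4) (min δ (c / 4)) (by linarith) hd (by
    have := min_le_right δ (c / 4)
    linarith)
  obtain ⟨I, hI, hv⟩ := hhard.exists_no
  refine ⟨q, hq, P, hP, I.m, I.pos, I.game.perm, hI, ?_⟩
  intro i j
  refine (card_le_of_value I _ hv i j).trans ?_
  exact mul_le_mul_of_nonneg_right (min_le_left _ _) (Nat.cast_nonneg _)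

theorem gapHard_of_spread (c : ℚ) (hc1 : c ≤ 1)
    (F : (q : ℕ) → Set (Set (Equiv.Perm (Fin q)))) (hall : GapHard c allPerms) (hs : Spread F) :
    GapHard c F := by
  intro ε δ hε hδ hεδ
  have hεr : (0 : ℝ) < ε := by exact_mod_cast hε
  have hδr : (0 : ℝ) < δ := by exact_mod_cast hδ
  obtain ⟨q1, hq1, P, hP, M, hM0, hM⟩ := universal F hs (ε / 2) (δ / 2) (by linarith) (by linarith)
  obtain ⟨δ2, hδ2, hδ2'⟩ := exists_rat_btwn (show (0 : ℝ) < δ / (2 * (M + 1)) by positivity)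
  have hδ20 : 0 < δ2 := by exact_mod_cast hδ2
  have hδ2δ : δ2 ≤ δ := by
    have h1 : (δ2 : ℝ) ≤ δ := by
      refine hδ2'.le.trans ?_
      rw [div_le_iff₀ (by positivity)]
      nlinarith
    exact_mod_cast h1
  obtain ⟨q, hq, P', _, hhard⟩ := hall (ε / 2) δ2 (by linarith) hδ20 (by linarith)
  obtain ⟨R, hR⟩ := hM q hq
  refine ⟨q1, hq1, P, hP, hhard.map R.app (poly_app R) ?_ ?_⟩
  · rintro I ⟨_, hI⟩
    refine ⟨(hR I).1, le_trans ?_ (hR I).2.1⟩
    have hm : Nonempty (Fin I.m) := ⟨⟨0, I.pos⟩⟩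
    have h1 := value_le_one I.game
    have h2 := value_nonneg I.game
    have hc1r : (c : ℝ) ≤ 1 := by exact_mod_cast hc1
    push_cast at hI ⊢
    have h3 : (ε : ℝ) / 2 * I.game.value ≤ ε / 2 := by nlinarith
    linarith
  · rintro I ⟨_, hI⟩
    refine ⟨(hR I).1, (hR I).2.2.trans ?_⟩
    have hm : Nonempty (Fin I.m) := ⟨⟨0, I.pos⟩⟩
    have h2 := value_nonneg I.game
    have h4 : M * I.game.value ≤ δ / 2 := by
      have h5 : M * I.game.value ≤ M * (δ / (2 * (M + 1))) :=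
        mul_le_mul_of_nonneg_left (hI.trans hδ2'.le) hM0
      refine h5.trans ?_
      rw [mul_div_assoc', div_le_div_iff₀ (by positivity) two_pos]
      nlinarith
    push_cast
    linarith

/-- The game with one left and one right vertex and the `q` shifts. -/
def shiftGame (q : ℕ) [NeZero q] : Game (Fin 1) (Fin 1) (Fin q) (Fin q) where
  src _ := 0
  dst _ := 0
  perm e := Equiv.addRight e

theorem shiftGame_value (q : ℕ) [NeZero q] : (shiftGame q).value ≤ 1 / (q : ℝ) := by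
  refine Real.iSup_le (fun p => ?_) (by positivity)
  have hm : Nonempty (Fin q) := ⟨0⟩
  rw [satFrac_eq, Fintype.expect_eq_sum_div_card, Finset.sum_boole, Fintype.card_fin]
  refine div_le_div_of_nonneg_right ?_ (Nat.cast_nonneg _)
  refine Nat.cast_le_one.2 ?_
  rw [Finset.card_le_one]
  intro e he e' he'
  rw [Finset.mem_filter] at he he'
  have h1 : p.1 0 + e = p.2 0 := he.2
  have h2 : p.1 0 + e' = p.2 0 := he'.2
  exact add_left_cancel (h1.trans h2.symm)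

/-- The instance of `shiftGame`. -/
def shiftInst (q : ℕ) [NeZero q] : Inst q where
  a := 1
  b := 1
  m := q
  pos := Nat.pos_of_ne_zero (NeZero.ne q)
  game := shiftGame q

/-- A family is spread iff games over it have arbitrarily small value. -/
theorem spread_iff (F : (q : ℕ) → Set (Set (Equiv.Perm (Fin q)))) :
    Spread F ↔ ∀ δ : ℚ, 0 < δ → ∃ q : ℕ, 0 < q ∧ ∃ P ∈ F q, ∃ I ∈ Over P,
      I.game.value ≤ (δ : ℝ) := by
  constructor
  · intro hs δ hδ
    have hδr : (0 : ℝ) < δ := by exact_mod_cast hδ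
    obtain ⟨q1, hq1, P, hP, M, hM0, hM⟩ := universal F hs 1 (δ / 2) one_pos (by linarith)
    obtain ⟨n, hn⟩ := exists_nat_gt (2 * M / δ)
    have hn1 : 0 < n + 1 := Nat.succ_pos n
    obtain ⟨R, hR⟩ := hM (n + 1) hn1
    refine ⟨q1, hq1, P, hP, R.app (shiftInst (n + 1)), (hR _).1, (hR _).2.2.trans ?_⟩
    have h1 : (shiftInst (n + 1)).game.value ≤ 1 / ((n + 1 : ℕ) : ℝ) := shiftGame_value (n + 1)
    have h2 : M * (shiftInst (n + 1)).game.value ≤ δ / 2 := by
      refine (mul_le_mul_of_nonneg_left h1 hM0).trans ?_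
      rw [div_lt_iff₀ hδr] at hn
      have h3 : (0 : ℝ) < ((n + 1 : ℕ) : ℝ) := by positivity
      rw [mul_one_div, div_le_iff₀ h3]
      push_cast
      nlinarith
    push_cast
    linarith
  · intro h δ hδ
    obtain ⟨q, hq, P, hP, I, hI, hv⟩ := h δ hδ
    exact ⟨q, hq, P, hP, I.m, I.pos, I.game.perm, hI, card_le_of_value I δ hv⟩

/-- The dichotomy. -/
theorem gapHard_iff (c : ℚ) (hc0 : 0 < c) (hc1 : c ≤ 1)
    (F : (q : ℕ) → Set (Set (Equiv.Perm (Fin q)))) :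
    GapHard c F ↔ GapHard c allPerms ∧ Spread F :=
  ⟨fun h => ⟨gapHard_all c F h, spread_of_gapHard c hc0 F h⟩,
    fun h => gapHard_of_spread c hc1 F h.1 h.2⟩

end Pool.Agent.P325n
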